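import Pool.Agent.H817.KE.Main2
import Pool.Agent.H817.KE.Unif
import Pool.Agent.H817.KE.Bd2
import Pool.Agent.H817.KE.Nrm2
import Pool.Agent.H817.KE.Sml2
import Pool.Agent.H817.KE.Con2
import Pool.Agent.H817.KE.Pig
import Pool.Agent.H817.KE.Cyc2
import Pool.Agent.H817.KE.Rad

/-!
# Chern's conjecture for closed affine manifolds with a bounded end

Let `Γ \ X` be a closed affine manifold, with an arbitrary developing map. Suppose that `X` has an end
which has a neighbourhood with a bounded developing image. It is shown here that the manifold is
radiant: `Γ` fixes a point `p`, which is not in the developing image; that a subgroup of finite index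
of `Γ` is generated by a contraction; and that the developing image is the complement of `p` (in
dimension at least two). In particular `dev x - p` is a vector field without zeros, so the Euler
characteristic is zero.

Outline of the proof. Let `U` be the neighbourhood, and `S` the set of the `g` in `Γ` which map a base
point into `U`. As `g` maps a chart around the base point into `U`, the linear parts of the elements of
`S` are bounded; as no nonzero linear functional is bounded on the developing image, they tend to
zero. So for almost all `g` in `S` the inverse is not in `S`, and it follows that `g` maps `U` into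
itself. For `γ` in `Γ` and `h = γ g γ⁻¹`, the paths `g ^ a h ^ (-j)`, `j ≥ 0`, leave `S` at one of finitely
many elements; the pigeonhole principle gives that a power of `g` is a power of `h`, so `γ` fixes the
fixed point of `g`. In the same way every coset of the powers of `g` meets a fixed finite set.
-/

set_option autoImplicit false

open Set Filter Topology

namespace Pool.Agent.Results.MP_1fa9a4_gt.BoundedEnds

/-- A closed affine manifold (or orbifold) `Γ \ X` modelled on the vector space `E`: the group `Γ`
acts on the space `X` properly discontinuously and with compact quotient, and the developing map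
`dev` is a local homeomorphism to `E` that is equivariant with respect to the affine holonomy
`hol`. -/
structure ClosedAffine (X Γ E : Type) [TopologicalSpace X] [Group Γ] [MulAction Γ X]
    [NormedAddCommGroup E] [NormedSpace ℝ E] (dev : X → E) (hol : Γ →* (E ≃ᵃ[ℝ] E)) : Prop where
  /-- the developing map is a local homeomorphism -/
  loc : IsLocalHomeomorph dev
  /-- the group acts by homeomorphisms -/
  cont : ∀ γ : Γ, Continuous fun x : X => γ • x
  /-- the developing map is equivariant -/
  equi : ∀ (γ : Γ) (x : X), dev (γ • x) = hol γ (dev x)
  /-- the action is properly discontinuous -/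
  pd : ∀ K : Set X, IsCompact K → {γ : Γ | ∃ x ∈ K, γ • x ∈ K}.Finite
  /-- the quotient is compact -/
  cc : ∃ K : Set X, IsCompact K ∧ ∀ x : X, ∃ γ : Γ, ∃ k ∈ K, γ • k = x

/-- The set `U` is a connected neighbourhood of an end (or of several ends) of `X` with a bounded
developing image: it is open and connected, its frontier is compact but its closure is not, and the
image under the developing map is bounded. -/
structure IsBoundedEnd {X E : Type} [TopologicalSpace X] [NormedAddCommGroup E] (dev : X → E)
    (U : Set X) : Prop where
  /-- `U` is open -/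
  isOpen : IsOpen U
  /-- `U` is connected -/
  isPreconnected : IsPreconnected U
  /-- the frontier of `U` is compact -/
  frontier : IsCompact (frontier U)
  /-- the closure of `U` is not compact -/
  closure : ¬ IsCompact (closure U)
  /-- the developing image of `U` is bounded -/
  isBounded : Bornology.IsBounded (dev '' U)

variable {X Γ E : Type} [TopologicalSpace X] [Group Γ] [MulAction Γ X] [NormedAddCommGroup E]
  [NormedSpace ℝ E]

/-- The holonomy fixes a point `p` which is not in the developing image, the developing image is the
complement of `p` if the dimension is at least two, and there is an element `g` of `Γ` which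
contracts the affine space to `p` and the powers of which are a subgroup of finite index. -/
def IsHopf (dev : X → E) (hol : Γ →* (E ≃ᵃ[ℝ] E)) : Prop :=
  ∃ p : E, (∀ γ : Γ, hol γ p = p) ∧ (∀ x : X, dev x ≠ p) ∧
    (2 ≤ Module.finrank ℝ E → range dev = {p}ᶜ) ∧
    ∃ g : Γ, (∀ z : E, Tendsto (fun n : ℕ => hol (g ^ n) z) atTop (𝓝 p)) ∧
      (Subgroup.zpowers g).FiniteIndex

/-- The closed affine manifold `Γ \ X` with the holonomy `hol` has a continuous vector field without
zeros, given by an equivariant function on `X`. -/
def HasField (X : Type) [TopologicalSpace X] [MulAction Γ X] (hol : Γ →* (E ≃ᵃ[ℝ] E)) : Prop :=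
  ∃ Z : X → E, Continuous Z ∧ (∀ (γ : Γ) (x : X), Z (γ • x) = (hol γ).linear (Z x)) ∧
    ∀ x, Z x ≠ 0

/-- **Theorem.** Let `Γ \ X` be a closed affine manifold of positive dimension, `X` connected, with an
arbitrary developing map. If some end of `X` has a neighbourhood with a bounded developing image,
then the holonomy fixes a point outside of the developing image, the group is virtually generated by
a contraction, and there is a vector field without zeros. -/
theorem result [T2Space X] [ConnectedSpace X] [FiniteDimensional ℝ E] [Nontrivial E] (dev : X → E)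
    (hol : Γ →* (E ≃ᵃ[ℝ] E)) (D : ClosedAffine X Γ E dev hol) (U : Set X)
    (hU : IsBoundedEnd dev U) : IsHopf dev hol ∧ HasField X hol := by
  have D' : Pool.Agent.H817.KE.CA X Γ E dev hol := ⟨D.loc, D.cont, D.equi, D.pd, D.cc⟩
  have hU' : Pool.Agent.H817.KE.BEnd dev U :=
    ⟨hU.isOpen, hU.isPreconnected, hU.frontier, hU.closure, hU.isBounded⟩
  obtain ⟨p, hp, hnp, hrange, g, hg, hfi⟩ := Pool.Agent.H817.KE.main2 Pool.Agent.H817.KE.t_unif
    (Pool.Agent.H817.KE.t_nrm2 Pool.Agent.H817.KE.t_unif)
    (Pool.Agent.H817.KE.t_con2 Pool.Agent.H817.KE.t_unif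
      (Pool.Agent.H817.KE.t_sml2 Pool.Agent.H817.KE.t_unif Pool.Agent.H817.KE.t_bd2
        (Pool.Agent.H817.KE.t_nrm2 Pool.Agent.H817.KE.t_unif)))
    Pool.Agent.H817.KE.t_pig (Pool.Agent.H817.KE.t_cyc2 Pool.Agent.H817.KE.t_pig)
    Pool.Agent.H817.KE.t_rad D' U hU'
  have hsub : ∀ (T : E ≃ᵃ[ℝ] E) (x y : E), T x - T y = T.linear (x - y) := by
    intro T x y
    have h := T.map_vadd y (x - y)
    rw [vadd_eq_add, vadd_eq_add, sub_add_cancel] at h
    rw [h, add_sub_cancel_right]
  refine ⟨⟨p, hp, hnp, hrange, g, ?_, hfi⟩, fun x => dev x - p,
    D.loc.continuous.sub continuous_const, ?_, ?_⟩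
  · intro z
    have hpow : ∀ n : ℕ, ‖hol (g ^ n) z - p‖ ≤ (1 / 2) ^ n * ‖z - p‖ := by
      intro n
      induction n with
      | zero =>
        rw [pow_zero, pow_zero, map_one, one_mul]
        exact le_refl _
      | succ n ih =>
        have h1 : hol (g ^ (n + 1)) z - p = Pool.Agent.H817.KE.L (hol g) (hol (g ^ n) z - p) := by
          have h2 : hol (g ^ (n + 1)) z = hol g (hol (g ^ n) z) := by
            rw [pow_succ', map_mul]
            rfl
          have h3 : p = hol g p := (hp g).symm
          rw [h2]
          conv_lhs => rw [h3]
          exact hsub (hol g) _ _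
        rw [h1]
        calc ‖Pool.Agent.H817.KE.L (hol g) (hol (g ^ n) z - p)‖
            ≤ ‖Pool.Agent.H817.KE.L (hol g)‖ * ‖hol (g ^ n) z - p‖ :=
              ContinuousLinearMap.le_opNorm _ _
          _ ≤ (1 / 2) * ((1 / 2) ^ n * ‖z - p‖) :=
              mul_le_mul hg ih (norm_nonneg _) (by norm_num)
          _ = (1 / 2) ^ (n + 1) * ‖z - p‖ := by rw [pow_succ]; ring
    rw [tendsto_iff_norm_sub_tendsto_zero]
    refine squeeze_zero (fun n => norm_nonneg _) hpow ?_
    have h4 : Tendsto (fun n : ℕ => ((1 : ℝ) / 2) ^ n) atTop (𝓝 0) :=
      tendsto_pow_atTop_nhds_zero_of_lt_one (by norm_num) (by norm_num)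
    have h5 := h4.mul_const ‖z - p‖
    rwa [zero_mul] at h5
  · intro γ x
    show dev (γ • x) - p = (hol γ).linear (dev x - p)
    rw [D.equi, ← hsub, hp]
  · intro x h
    exact hnp x (sub_eq_zero.1 h)

end Pool.Agent.Results.MP_1fa9a4_gt.BoundedEnds
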