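import Pool.Agent.H488.CC.Weights
import Pool.Agent.H488.CC.Cover

/-!
# Closed affine manifolds whose fundamental group acts on a contractible simplicial complex

Chern's conjecture says that closed affine manifolds have Euler characteristic zero. A closed affine manifold with
non-zero Euler characteristic has no finite covering with a vector field without zeros (Poincare and Hopf). Let
`Γ \ X` be a closed affine manifold of dimension `n`, `K` a subgroup of finite index of `Γ`, and let `K` act on a
simplicial complex `S`, which may be infinite and not locally finite, with arbitrary stabilizers. `S` is admissible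
(`Admissible`) if there is a continuous `K`-equivariant map from `X` to the geometric realization of `S` (with the weak
topology).

1. `S` is admissible if its realization is contractible.
2. `S` is admissible if it is the nerve of a locally finite partition of unity of `X` permuted by `K`; for instance
  the nerve of the covering of `X` by the components of the preimages of the members of an open covering of the
  manifold.

Suppose that `S` is admissible and that the covering `K \ X` has no vector field without zeros.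

3. Let `Q(σ)` be nonempty sets of vector fields on `X`, for the simplices `σ` of `S`, which are permuted by `K`. Then
  there are a point `x` of `X` and a chain of simplices such that the values at `x` of the fields from the `Q(σ)`, `σ`
  in the chain, contain the origin in their convex hull.
4. Let `P(σ)` be nonempty sets of points of the affine space, for the simplices `σ` of `S`, which are permuted by `K`.
  Then there is a chain of simplices such that the developing image meets the convex hull of the union of the `P(σ)`,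
  `σ` in the chain.
5. There is a simplex `σ` such that for all positive functions `c` on `K` the space of the vectors `u` with
  `lin γ u = c γ u` for all `γ` in the stabilizer of `σ` has dimension at most `dim σ`.
6. There is a simplex `σ` such that for all positive functions `c` on `K` the space of the linear forms `l` with
  `l ∘ lin γ = c γ l` for all `γ` in the stabilizer of `σ` has dimension at most `dim σ`.
7. If the dimension of `S` is smaller than `n` then there is a simplex whose stabilizer contains an element the linear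
  holonomy of which is not a positive multiple of the identity.

So Chern's conjecture is true for the closed affine manifolds with an action of a subgroup of finite index of the
fundamental group on a contractible complex such that the stabilizer of each simplex `σ` has, in the linear holonomy,
a weight space for a positive weight of dimension larger than `dim σ`. For trees see the library result
`TreesAndHyperbolicSpaces`, where the condition on the edges is not needed.
-/

set_option autoImplicit false

open Set Topology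

namespace Pool.Agent.Results.MP_1fa9a4_gt.ContractibleComplexes

open Pool.Agent.H488.CC (move Cplx Realiz Chain nerve)

/-- A closed affine manifold `Γ \ X` modelled on the vector space `E`: the group `Γ` acts on the
Hausdorff space `X` freely and properly discontinuously and with compact quotient, and the
developing map `dev` is a local homeomorphism to `E` that is equivariant with respect to the affine
holonomy `hol`. -/
structure ClosedAffine (X Γ E : Type) [TopologicalSpace X] [Group Γ] [MulAction Γ X]
    [NormedAddCommGroup E] [NormedSpace ℝ E] (dev : X → E) (hol : Γ →* (E ≃ᵃ[ℝ] E)) : Prop where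
  /-- the developing map is a local homeomorphism -/
  loc : IsLocalHomeomorph dev
  /-- the group acts by homeomorphisms -/
  cont : ∀ γ : Γ, Continuous fun x : X => γ • x
  /-- the developing map is equivariant -/
  equi : ∀ (γ : Γ) (x : X), dev (γ • x) = hol γ (dev x)
  /-- the action is free -/
  free : ∀ γ : Γ, γ ≠ 1 → ∀ x : X, γ • x ≠ x
  /-- the action is properly discontinuous -/
  pd : ∀ K : Set X, IsCompact K → {γ : Γ | ∃ x ∈ K, γ • x ∈ K}.Finite
  /-- the quotient is compact -/
  cc : ∃ K : Set X, IsCompact K ∧ ∀ x : X, ∃ γ : Γ, ∃ k ∈ K, γ • k = x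

variable {X Γ E : Type} [TopologicalSpace X] [Group Γ] [MulAction Γ X] [NormedAddCommGroup E]
  [NormedSpace ℝ E]

/-- The linear holonomy. -/
def lin (hol : Γ →* (E ≃ᵃ[ℝ] E)) (γ : Γ) : E →ₗ[ℝ] E := (hol γ).linear

/-- The covering `K \ X` has a continuous vector field without zeros. -/
def HasField (hol : Γ →* (E ≃ᵃ[ℝ] E)) (X : Type) [TopologicalSpace X] [MulAction Γ X] (K : Subgroup Γ) : Prop :=
  ∃ Z : X → E, Continuous Z ∧ (∀ γ ∈ K, ∀ x, Z (γ • x) = lin hol γ (Z x)) ∧ ∀ x, Z x ≠ 0

/-- There is a continuous `K`-equivariant map from `X` to the realization of the complex `S`. -/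
def Admissible (X : Type) [TopologicalSpace X] [MulAction Γ X] (K : Subgroup Γ) {V : Type} [MulAction K V]
    (S : Set (Finset V)) : Prop :=
  ∃ s : X → Realiz S, Continuous s ∧ ∀ (γ : K) (x : X) (v : V), (s (γ • x)).1 v = (s x).1 (γ⁻¹ • v)

/-- The vectors on which the stabilizer of `σ` in `K` acts by the function `c`. -/
def vectors (hol : Γ →* (E ≃ᵃ[ℝ] E)) (K : Subgroup Γ) {V : Type} [MulAction K V] (c : K → ℝ) (σ : Finset V) :
    Submodule ℝ E where
  carrier := {u | ∀ γ : K, move γ σ = σ → lin hol γ.1 u = c γ • u}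
  add_mem' := by
    intro a b ha hb γ hγ
    rw [map_add, ha γ hγ, hb γ hγ, smul_add]
  zero_mem' := by
    intro γ _
    rw [map_zero, smul_zero]
  smul_mem' := by
    intro a u hu γ hγ
    rw [map_smul, hu γ hγ, smul_comm]

/-- The linear forms on which the stabilizer of `σ` in `K` acts by the function `c`. -/
def forms (hol : Γ →* (E ≃ᵃ[ℝ] E)) (K : Subgroup Γ) {V : Type} [MulAction K V] (c : K → ℝ) (σ : Finset V) :
    Submodule ℝ (E →L[ℝ] ℝ) where
  carrier := {l | ∀ γ : K, move γ σ = σ → ∀ u, l (lin hol γ.1 u) = c γ * l u}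
  add_mem' := by
    intro a b ha hb γ hγ u
    show a _ + b _ = c γ * (a u + b u)
    rw [ha γ hγ, hb γ hγ, mul_add]
  zero_mem' := by
    intro γ _ u
    show (0 : ℝ) = c γ * 0
    rw [mul_zero]
  smul_mem' := by
    intro a l hl γ hγ u
    show a * l _ = c γ * (a * l u)
    rw [hl γ hγ]
    ring

/-- **Theorem.** Let `Γ \ X` be a closed affine manifold, `K` a subgroup of finite index of `Γ` which acts on the
simplicial complex `S`. See the explanations above. -/
theorem result [T2Space X] [FiniteDimensional ℝ E] {dev : X → E} {hol : Γ →* (E ≃ᵃ[ℝ] E)}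
    (D : ClosedAffine X Γ E dev hol) (K : Subgroup Γ) (hK : K.FiniteIndex) (V : Type) [MulAction K V]
    (S : Set (Finset V)) (hS : Cplx K S) :
    -- (1) contractible complexes
    (ContractibleSpace (Realiz S) → Admissible X K S) ∧
    -- (2) nerves
    (∀ φ : V → X → ℝ, (∀ v, Continuous (φ v)) → (∀ v x, 0 ≤ φ v x) →
      (LocallyFinite fun v => Function.support (φ v)) → (∀ x, ∑ᶠ v, φ v x = 1) →
      (∀ (γ : K) (v : V) (x : X), φ (γ • v) (γ • x) = φ v x) → S = nerve φ → Admissible X K S) ∧
    (Admissible X K S → ¬ HasField hol X K →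
      -- (3) sets of vector fields
      (∀ Q : Finset V → Set C(X, E), (∀ σ ∈ S, (Q σ).Nonempty) →
        (∀ (γ : K), ∀ σ ∈ S, ∀ Z ∈ Q σ, ∃ Z' ∈ Q (move γ σ), ∀ x, Z' (γ • x) = lin hol γ.1 (Z x)) →
        ∃ C : Finset (Finset V), Chain S C ∧ ∃ x, (0 : E) ∈ convexHull ℝ {u | ∃ σ ∈ C, ∃ Z ∈ Q σ, u = Z x}) ∧
      -- (4) sets of points
      (∀ P : Finset V → Set E, (∀ σ ∈ S, (P σ).Nonempty) →
        (∀ (γ : K), ∀ σ ∈ S, ∀ p ∈ P σ, hol γ.1 p ∈ P (move γ σ)) →
        ∃ C : Finset (Finset V), Chain S C ∧ ∃ x, dev x ∈ convexHull ℝ (⋃ σ ∈ C, P σ)) ∧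
      -- (5) vectors
      (∃ σ ∈ S, ∀ c : K → ℝ, (∀ γ, 0 < c γ) → Module.finrank ℝ (vectors hol K c σ) < σ.card) ∧
      -- (6) linear forms
      (∃ σ ∈ S, ∀ c : K → ℝ, (∀ γ, 0 < c γ) → Module.finrank ℝ (forms hol K c σ) < σ.card) ∧
      -- (7) complexes of small dimension
      ((∀ σ ∈ S, σ.card ≤ Module.finrank ℝ E) → ∃ σ ∈ S, ∃ γ : K, move γ σ = σ ∧
        ∀ c : ℝ, 0 < c → ∃ u, lin hol γ.1 u ≠ c • u)) := by
  have D0 : Pool.Agent.W689.Ch.AffMfd X Γ E dev hol := ⟨D.loc, D.cont, D.equi, D.pd, D.cc⟩
  have D' := Pool.Agent.H488.CC.aff_sub D0 K hK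
  have hfree : ∀ γ : K, γ ≠ 1 → ∀ x : X, γ • x ≠ x := fun γ hγ x =>
    D.free γ.1 (fun h => hγ (Subtype.ext h)) x
  refine ⟨fun hcon => ?_, fun φ h1 h2 h3 h4 h5 h6 => ?_, fun hadm hno => ?_⟩
  · let _ := Pool.Agent.H488.CC.act hS
    obtain ⟨s, hs, hse⟩ := Pool.Agent.TH289.N.exists_eqv D' hfree (Y := Realiz S)
      (Pool.Agent.H488.CC.continuous_act hS)
    refine ⟨s, hs, fun γ x v => ?_⟩
    rw [hse]
    rfl
  · subst h6
    obtain ⟨s, hs, hse⟩ := Pool.Agent.H488.CC.exists_map h1 h2 h3 h4
    refine ⟨s, hs, fun γ x v => ?_⟩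
    rw [hse, hse]
    have := h5 γ (γ⁻¹ • v) x
    rwa [smul_inv_smul] at this
  · obtain ⟨s, hs, hsx⟩ := hadm
    have hfield : ∀ Z : X → E, Continuous Z → (∀ (γ : K) x, Z (γ • x) = lin hol γ.1 (Z x)) → (∀ x, Z x ≠ 0) → False :=
      fun Z h1 h2 h3 => hno ⟨Z, h1, fun γ hγ x => h2 ⟨γ, hγ⟩ x, h3⟩
    have h3 : ∀ Q : Finset V → Set C(X, E), (∀ σ ∈ S, (Q σ).Nonempty) →
        (∀ (γ : K), ∀ σ ∈ S, ∀ Z ∈ Q σ, ∃ Z' ∈ Q (move γ σ), ∀ x, Z' (γ • x) = lin hol γ.1 (Z x)) →
        ∃ C : Finset (Finset V), Chain S C ∧ ∃ x, (0 : E) ∈ convexHull ℝ {u | ∃ σ ∈ C, ∃ Z ∈ Q σ, u = Z x} := by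
      intro Q hQ1 hQ2
      by_contra hcon
      push Not at hcon
      obtain ⟨Z, hZ1, hZ2, hZ3⟩ := Pool.Agent.H488.CC.principle D' hfree
        (Pool.Agent.H488.CC.rhoE (hol.comp K.subtype)) hS hs hsx Q hQ1 hQ2 (fun C hC x => hcon C hC x)
      exact hfield Z hZ1 hZ2 hZ3
    refine ⟨h3, fun P hP1 hP2 => ?_, ?_, ?_, fun hdim => ?_⟩
    · obtain ⟨C, hC, x, h4⟩ := h3 (fun σ => {Z | ∃ p ∈ P σ, ∀ x, Z x = p - dev x}) (fun σ hσ => by
        obtain ⟨p, hp⟩ := hP1 σ hσ
        exact ⟨⟨fun x => p - dev x, continuous_const.sub D.loc.continuous⟩, p, hp, fun x => rfl⟩) (by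
        rintro γ σ hσ Z ⟨p, hp, hZ⟩
        refine ⟨⟨fun x => hol γ.1 p - dev x, continuous_const.sub D.loc.continuous⟩,
          ⟨hol γ.1 p, hP2 γ σ hσ p hp, fun x => rfl⟩, fun x => ?_⟩
        show hol γ.1 p - dev (γ.1 • x) = (hol γ.1).linear (Z x)
        rw [D.equi, hZ]
        exact ((hol γ.1).toAffineMap.linearMap_vsub p (dev x)).symm)
      refine ⟨C, hC, x, ?_⟩
      have h5 : {u | ∃ σ ∈ C, ∃ Z ∈ {Z : C(X, E) | ∃ p ∈ P σ, ∀ x, Z x = p - dev x}, u = Z x} ⊆
          (fun p => p - dev x) '' (⋃ σ ∈ C, P σ) := by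
        rintro _ ⟨σ, hσ, Z, ⟨p, hp, hZ⟩, rfl⟩
        exact ⟨p, mem_iUnion₂.2 ⟨σ, hσ, hp⟩, (hZ x).symm⟩
      have h6 : convexHull ℝ ((fun p => p - dev x) '' (⋃ σ ∈ C, P σ)) ⊆
          (fun p => p - dev x) '' convexHull ℝ (⋃ σ ∈ C, P σ) := by
        refine convexHull_min (image_mono (subset_convexHull ℝ _)) ?_
        rintro _ ⟨p, hp, rfl⟩ _ ⟨q, hq, rfl⟩ a b ha hb hab
        refine ⟨a • p + b • q, convex_convexHull ℝ _ hp hq ha hb hab, ?_⟩
        have : dev x = a • dev x + b • dev x := by rw [← add_smul, hab, one_smul]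
        show a • p + b • q - dev x = a • (p - dev x) + b • (q - dev x)
        rw [smul_sub, smul_sub]
        conv_lhs => rw [this]
        abel
      obtain ⟨p, hp, h7⟩ := h6 (convexHull_mono h5 h4)
      have h8 : p = dev x := sub_eq_zero.1 h7
      rwa [h8] at hp
    · by_contra hcon
      push Not at hcon
      obtain ⟨Z, hZ1, hZ2, hZ3⟩ := Pool.Agent.H488.CC.weights D' hfree
        (Pool.Agent.H488.CC.rhoE (hol.comp K.subtype)) hS (fun σ hσ => by
          obtain ⟨c, hc, h4⟩ := hcon σ hσ
          exact ⟨c, hc, h4⟩) hs hsx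
      exact hfield Z hZ1 hZ2 hZ3
    · by_contra hcon
      push Not at hcon
      obtain ⟨L, hL1, hL2, hL3⟩ := Pool.Agent.H488.CC.weights D' hfree
        (Pool.Agent.H488.CC.rhoD (hol.comp K.subtype)) hS (fun σ hσ => by
          obtain ⟨c, hc, h4⟩ := hcon σ hσ
          refine ⟨fun γ => c γ⁻¹, fun γ => hc _, h4.trans (Submodule.finrank_mono ?_)⟩
          intro l hl γ hγ
          ext u
          have h5 : move γ⁻¹ σ = σ := Pool.Agent.H488.CC.move_inv_eq hγ
          exact hl γ⁻¹ h5 u) hs hsx
      obtain ⟨Z, hZ1, hZ2, hZ3⟩ := Pool.Agent.H488.CC.field_of_form D' hfree hL1 hL2 hL3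
      exact hfield Z hZ1 hZ2 hZ3
    · by_contra hcon
      push Not at hcon
      obtain ⟨Z, hZ1, hZ2, hZ3⟩ := Pool.Agent.H488.CC.weights D' hfree
        (Pool.Agent.H488.CC.rhoE (hol.comp K.subtype)) hS (fun σ hσ => by
          classical
          have h4 := hcon σ hσ
          choose! c hc h5 using h4
          refine ⟨fun γ => if move γ σ = σ then c γ else 1, fun γ => ?_, ?_⟩
          · show 0 < if move γ σ = σ then c γ else 1
            by_cases h6 : move γ σ = σ
            · rw [if_pos h6]; exact hc γ h6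
            · rw [if_neg h6]; exact one_pos
          · refine (hdim σ hσ).trans ?_
            have h7 : Pool.Agent.H488.CC.wt (Pool.Agent.H488.CC.rhoE (hol.comp K.subtype))
                (fun γ => if move γ σ = σ then c γ else 1) σ = ⊤ := by
              rw [eq_top_iff]
              intro u _ γ hγ
              show lin hol γ.1 u = (if move γ σ = σ then c γ else 1) • u
              rw [if_pos hγ, h5 γ hγ]
            rw [h7, finrank_top]) hs hsx
      exact hfield Z hZ1 hZ2 hZ3

end Pool.Agent.Results.MP_1fa9a4_gt.ContractibleComplexes
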