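import Pool.Agent.H817.KE.Main
import Pool.Agent.H817.KE.T
import Pool.Agent.H817.KE.A
import Pool.Agent.H817.KE.Bd
import Pool.Agent.H817.KE.Nrm
import Pool.Agent.H817.KE.Sml
import Pool.Agent.H817.KE.Contr
import Pool.Agent.H817.KE.Fix
import Pool.Agent.H817.KE.Cyc
import Pool.Agent.H817.KE.Hopf

/-!
# Chern's conjecture for quotients of domains by groups with several ends

Let `Γ \ X` be a closed affine manifold of dimension `n ≥ 2` whose developing map is injective (a
quotient of a domain of the affine space); there is no condition on the volume. It is shown here that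
if the group `Γ` has more than one end then the manifold is finitely covered by a Hopf manifold: the
developing image is the complement of a point `p`, which is fixed by `Γ`, and a subgroup of finite
index of `Γ` is generated by a contraction. In particular `dev x - p` is a vector field without
zeros, so the Euler characteristic is zero.

Outline of the proof. By the Poincaré lemma with compact supports a nontrivial almost invariant subset
`S` of `Γ` is given by a bounded part of the complement of the developing image. If the linear parts
of the elements of `S` were not bounded then a whole line would be contained in this bounded part. So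
they are bounded; their limits map the developing image into the bounded part, and since no nonzero
linear functional is bounded on the developing image, the limits are zero. So `S` contains all
positive powers of a contraction `g`, with fixed point `p`. For `γ` in `Γ` and `h = γ g γ⁻¹`, the paths
`g ^ a h ^ (-j)`, `j ≥ 0`, leave `S` at one of finitely many elements; the pigeonhole principle gives
that `γ p` is fixed by a power of `g`, so `γ p = p`. In the same way every coset of the powers of `g`
meets a fixed finite set.
-/

set_option autoImplicit false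

open Set Filter Topology

namespace Pool.Agent.Results.MP_1fa9a4_gt.SeveralEnds

/-- A closed affine manifold (or orbifold) `Γ \ X` modelled on the vector space `E`: the group `Γ`
acts on the space `X` properly discontinuously and with compact quotient, and the developing map
`dev` is a local homeomorphism to `E` that is equivariant with respect to the affine holonomy
`hol`. -/
structure ClosedAffine (X Γ E : Type) [TopologicalSpace X] [Group Γ] [MulAction Γ X]
    [NormedAddCommGroup E] [NormedSpace ℝ E] (dev : X → E) (hol : Γ →* (E ≃ᵃ[ℝ] E)) : Prop where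
  /-- the developing map is a local homeomorphism -/
  loc : IsLocalHomeomorph dev
  /-- the group acts by homeomorphisms -/
  cont : ∀ γ : Γ, Continuous fun x : X => γ • x
  /-- the developing map is equivariant -/
  equi : ∀ (γ : Γ) (x : X), dev (γ • x) = hol γ (dev x)
  /-- the action is properly discontinuous -/
  pd : ∀ K : Set X, IsCompact K → {γ : Γ | ∃ x ∈ K, γ • x ∈ K}.Finite
  /-- the quotient is compact -/
  cc : ∃ K : Set X, IsCompact K ∧ ∀ x : X, ∃ γ : Γ, ∃ k ∈ K, γ • k = x

/-- The group `Γ` has more than one end: there is an almost invariant subset (a subset which differs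
from its right translates by finite sets) which is infinite and has an infinite complement. -/
def HasSeveralEnds (Γ : Type) [Group Γ] : Prop :=
  ∃ S : Set Γ, (∀ s : Γ, {g : Γ | ¬ (g ∈ S ↔ g * s ∈ S)}.Finite) ∧ S.Infinite ∧ Sᶜ.Infinite

variable {X Γ E : Type} [TopologicalSpace X] [Group Γ] [MulAction Γ X] [NormedAddCommGroup E]
  [NormedSpace ℝ E]

/-- The affine manifold `Γ \ X` is finitely covered by a Hopf manifold: the developing image is the
complement of a point `p`, which is fixed by the holonomy, and there is an element `g` of `Γ` which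
contracts the affine space to `p` and the powers of which are a subgroup of finite index. -/
def IsHopf (dev : X → E) (hol : Γ →* (E ≃ᵃ[ℝ] E)) : Prop :=
  ∃ p : E, range dev = {p}ᶜ ∧ (∀ γ : Γ, hol γ p = p) ∧
    ∃ g : Γ, (∀ z : E, Tendsto (fun n : ℕ => hol (g ^ n) z) atTop (𝓝 p)) ∧
      (Subgroup.zpowers g).FiniteIndex

/-- The closed affine manifold `Γ \ X` with the holonomy `hol` has a continuous vector field without
zeros, given by an equivariant function on `X`. -/
def HasField (X : Type) [TopologicalSpace X] [MulAction Γ X] (hol : Γ →* (E ≃ᵃ[ℝ] E)) : Prop :=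
  ∃ Z : X → E, Continuous Z ∧ (∀ (γ : Γ) (x : X), Z (γ • x) = (hol γ).linear (Z x)) ∧
    ∀ x, Z x ≠ 0

/-- **Theorem.** Let `Γ \ X` be a closed affine manifold of dimension at least two with an injective
developing map, `X` connected, such that the group `Γ` has more than one end. Then it is finitely
covered by a Hopf manifold, and it has a vector field without zeros. -/
theorem result [ConnectedSpace X] (dev : X → E) (hol : Γ →* (E ≃ᵃ[ℝ] E))
    (D : ClosedAffine X Γ E dev hol) (hinj : Function.Injective dev)
    (hn : 2 ≤ Module.finrank ℝ E) (hΓ : HasSeveralEnds Γ) : IsHopf dev hol ∧ HasField X hol := by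
  have hfd : FiniteDimensional ℝ E := Module.finite_of_finrank_pos (by omega)
  obtain ⟨S, hS, hS1, hS2⟩ := hΓ
  have hK : Pool.Agent.H817.KE.Kl hol (range dev) := by
    have hoe : IsOpenEmbedding dev := D.loc.isOpenEmbedding_of_injective hinj
    refine ⟨hoe.isOpen_range, isConnected_range D.loc.continuous, ?_, ?_, ?_⟩
    · rintro g _ ⟨x, rfl⟩
      exact ⟨g • x, D.equi g x⟩
    · intro K hK hc
      have h1 : IsCompact (dev ⁻¹' K) := hoe.isInducing.isCompact_preimage_iff hK |>.2 hc
      refine (D.pd _ h1).subset ?_
      rintro g ⟨z, hz, hgz⟩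
      obtain ⟨x, rfl⟩ := hK hz
      refine ⟨x, hz, ?_⟩
      show dev (g • x) ∈ K
      rw [D.equi]
      exact hgz
    · obtain ⟨K, hK, h⟩ := D.cc
      refine ⟨dev '' K, image_subset_range _ _, hK.image D.loc.continuous, ?_⟩
      rintro _ ⟨x, rfl⟩
      obtain ⟨g, k, hk, rfl⟩ := h x
      exact ⟨g, dev k, ⟨k, hk, rfl⟩, (D.equi g k).symm⟩
  obtain ⟨p, hΩ, hp, g, hg, hfi⟩ := Pool.Agent.H817.KE.main
    (Pool.Agent.H817.KE.t_A Pool.Agent.H817.KE.t_T) Pool.Agent.H817.KE.t_nrm
    (Pool.Agent.H817.KE.t_con
      (Pool.Agent.H817.KE.t_sml Pool.Agent.H817.KE.t_bd Pool.Agent.H817.KE.t_nrm))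
    Pool.Agent.H817.KE.t_fix Pool.Agent.H817.KE.t_cyc Pool.Agent.H817.KE.t_hopf hn hol (range dev)
    hK S hS hS1 hS2
  have hsub : ∀ (T : E ≃ᵃ[ℝ] E) (x y : E), T x - T y = T.linear (x - y) := by
    intro T x y
    have h := T.map_vadd y (x - y)
    rw [vadd_eq_add, vadd_eq_add, sub_add_cancel] at h
    rw [h, add_sub_cancel_right]
  refine ⟨⟨p, hΩ, hp, g, ?_, hfi⟩, fun x => dev x - p, D.loc.continuous.sub continuous_const, ?_, ?_⟩
  · intro z
    have hpow : ∀ n : ℕ, ‖hol (g ^ n) z - p‖ ≤ (1 / 2) ^ n * ‖z - p‖ := by
      intro n
      induction n with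
      | zero =>
        rw [pow_zero, pow_zero, map_one, one_mul]
        exact le_refl _
      | succ n ih =>
        have h1 : hol (g ^ (n + 1)) z - p = Pool.Agent.H817.KE.L (hol g) (hol (g ^ n) z - p) := by
          have h2 : hol (g ^ (n + 1)) z = hol g (hol (g ^ n) z) := by
            rw [pow_succ', map_mul]
            rfl
          have h3 : p = hol g p := (hp g).symm
          rw [h2]
          conv_lhs => rw [h3]
          exact hsub (hol g) _ _
        rw [h1]
        calc ‖Pool.Agent.H817.KE.L (hol g) (hol (g ^ n) z - p)‖
            ≤ ‖Pool.Agent.H817.KE.L (hol g)‖ * ‖hol (g ^ n) z - p‖ :=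
              ContinuousLinearMap.le_opNorm _ _
          _ ≤ (1 / 2) * ((1 / 2) ^ n * ‖z - p‖) :=
              mul_le_mul hg ih (norm_nonneg _) (by norm_num)
          _ = (1 / 2) ^ (n + 1) * ‖z - p‖ := by rw [pow_succ]; ring
    rw [tendsto_iff_norm_sub_tendsto_zero]
    refine squeeze_zero (fun n => norm_nonneg _) hpow ?_
    have h4 : Tendsto (fun n : ℕ => ((1 : ℝ) / 2) ^ n) atTop (𝓝 0) :=
      tendsto_pow_atTop_nhds_zero_of_lt_one (by norm_num) (by norm_num)
    have h5 := h4.mul_const ‖z - p‖
    rwa [zero_mul] at h5
  · intro γ x
    show dev (γ • x) - p = (hol γ).linear (dev x - p)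
    rw [D.equi, ← hsub, hp]
  · intro x h
    have h1 : dev x ∈ range dev := ⟨x, rfl⟩
    rw [hΩ] at h1
    exact h1 (sub_eq_zero.1 h)

end Pool.Agent.Results.MP_1fa9a4_gt.SeveralEnds
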